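import Pool.Agent.Q66.TG.Gram

/-!
# Moments: Hankel matrices and the comparison of three terms
-/

set_option autoImplicit false

namespace Pool.Agent.Q66.TG

open Finset Matrix Pool.Agent.W715.VC Pool.Agent.H550R3.Jones
open Pool.Agent.W709.QAT (Piece run cup cap kap Diag)

variable {N : ℕ}

theorem hankel (hN : 0 < N) {T A : Diag} (hT : T13 T) (hA : T33 A) {m : ℕ} (c : Fin m → ℂ) :
    (∃ r : ℝ, 0 ≤ r ∧ ∑ i, ∑ j, (starRingEnd ℂ) (c i) * c j * an hN T A ((i : ℕ) + j) = r) ∧
    ∃ r : ℝ, 0 ≤ r ∧ ∑ i, ∑ j, (starRingEnd ℂ) (c i) * c j * an hN T A ((i : ℕ) + j + 1) = r := by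
  constructor
  · obtain ⟨r, hr, h⟩ := gram hN (fun i : Fin m => T ++ pw (sq A) i) c
      fun i => T13_append hT (T33_pw (T33_sq hA) i)
    refine ⟨r, hr, ?_⟩
    rw [← h]
    refine sum_congr rfl fun i _ => sum_congr rfl fun j _ => ?_
    rw [an_even hN hT hA, Nat.add_comm]
  · obtain ⟨r, hr, h⟩ := gram hN (fun i : Fin m => T ++ (pw (sq A) i ++ A)) c
      fun i => T13_append hT (T33_append (T33_pw (T33_sq hA) i) hA)
    refine ⟨r, hr, ?_⟩
    rw [← h]
    refine sum_congr rfl fun i _ => sum_congr rfl fun j _ => ?_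
    rw [an_odd hN hT hA]
    congr 2
    omega

/-- three terms of a log-convex sequence -/
lemma three_terms {J : ℕ → ℝ} (h0 : ∀ n, 0 ≤ J n) (hJ : ∀ n, J (n + 1) ^ 2 ≤ J n * J (n + 2))
    (i d e : ℕ) : J (i + d) ^ (d + e) ≤ J i ^ e * J (i + (d + e)) ^ d := by
  rcases Nat.eq_zero_or_pos d with rfl | hd
  · simp
  rcases (h0 (i + d)).lt_or_eq with hp | hp
  swap
  · rw [← hp, zero_pow (by omega)]
    exact mul_nonneg (pow_nonneg (h0 _) _) (pow_nonneg (h0 _) _)
  -- positivity
  have hdown : ∀ k, 0 < J (k + 1) → 0 < J k := by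
    intro k hk
    by_contra hc
    have h1 : J k = 0 := le_antisymm (not_lt.1 hc) (h0 _)
    have := hJ k
    rw [h1, zero_mul] at this
    have := pow_pos hk 2
    linarith
  have hup : ∀ k, 0 < J (k + 1) → 0 < J (k + 2) := by
    intro k hk
    by_contra hc
    have h1 : J (k + 2) = 0 := le_antisymm (not_lt.1 hc) (h0 _)
    have := hJ k
    rw [h1, mul_zero] at this
    have := pow_pos hk 2
    linarith
  have hlow : ∀ j, j ≤ d → 0 < J (i + (d - j)) := by
    intro j
    induction j with
    | zero => intro _; exact hp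
    | succ j ih =>
      intro hj
      apply hdown
      have : i + (d - (j + 1)) + 1 = i + (d - j) := by omega
      rw [this]
      exact ih (by omega)
  have hhigh : ∀ j, 0 < J (i + d + j) := by
    intro j
    induction j with
    | zero => exact hp
    | succ j ih =>
      have h1 := hup (i + d + j - 1) (by
        have : i + d + j - 1 + 1 = i + d + j := by omega
        rw [this]
        exact ih)
      have : i + d + j - 1 + 2 = i + d + (j + 1) := by omega
      rwa [this] at h1
  have hpos : ∀ j, 0 < J (i + j) := by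
    intro j
    rcases Nat.lt_or_ge j d with h | h
    · have := hlow (d - j) (by omega)
      have e1 : i + (d - (d - j)) = i + j := by omega
      rwa [e1] at this
    · have := hhigh (j - d)
      have e1 : i + d + (j - d) = i + j := by omega
      rwa [e1] at this
  -- ratios
  set r : ℕ → ℝ := fun j => J (i + j + 1) / J (i + j) with hr
  have hr0 : ∀ j, 0 < r j := fun j => div_pos (hpos (j + 1)) (hpos j)
  have hmono : Monotone r := by
    refine monotone_nat_of_le_succ fun j => ?_
    rw [hr]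
    dsimp only
    rw [div_le_div_iff₀ (hpos j) (hpos (j + 1))]
    have := hJ (i + j)
    have e1 : i + (j + 1) + 1 = i + j + 2 := by ring
    have e2 : i + (j + 1) = i + j + 1 := by ring
    rw [e1, e2]
    nlinarith
  have hprod : ∀ a b, J (i + (a + b)) = J (i + a) * ∏ k ∈ range b, r (a + k) := by
    intro a b
    induction b with
    | zero => simp
    | succ b ih =>
      rw [prod_range_succ, ← mul_assoc, ← ih, hr]
      dsimp only
      rw [mul_div_cancel₀]
      · rfl
      · exact (hpos (a + b)).ne'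
  have h1 : J (i + d) ≤ J i * r d ^ d := by
    have := hprod 0 d
    rw [Nat.zero_add, Nat.add_zero] at this
    rw [this]
    refine mul_le_mul_of_nonneg_left ?_ (h0 _)
    calc ∏ k ∈ range d, r (0 + k) ≤ ∏ _k ∈ range d, r d :=
          prod_le_prod (fun k _ => (hr0 _).le) fun k hk =>
            hmono (by have := mem_range.1 hk; omega)
      _ = r d ^ d := by rw [prod_const, card_range]
  have h2 : J (i + d) * r d ^ e ≤ J (i + (d + e)) := by
    rw [hprod d e]
    refine mul_le_mul_of_nonneg_left ?_ (h0 _)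
    calc r d ^ e = ∏ _k ∈ range e, r d := by rw [prod_const, card_range]
      _ ≤ ∏ k ∈ range e, r (d + k) :=
          prod_le_prod (fun k _ => (hr0 _).le) fun k _ => hmono (by omega)
  have hrd := hr0 d
  have h3 : J (i + d) ^ (d + e) * (r d ^ e) ^ d ≤ (J i ^ e * J (i + (d + e)) ^ d) * (r d ^ e) ^ d := by
    calc J (i + d) ^ (d + e) * (r d ^ e) ^ d = J (i + d) ^ e * (J (i + d) * r d ^ e) ^ d := by
          rw [mul_pow, pow_add]
          ring
      _ ≤ (J i * r d ^ d) ^ e * J (i + (d + e)) ^ d :=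
          mul_le_mul (pow_le_pow_left₀ (h0 _) h1 e)
            (pow_le_pow_left₀ (mul_nonneg (h0 _) (pow_nonneg hrd.le _)) h2 d)
            (pow_nonneg (mul_nonneg (h0 _) (pow_nonneg hrd.le _)) _)
            (pow_nonneg (mul_nonneg (h0 _) (pow_nonneg hrd.le _)) _)
      _ = (J i ^ e * J (i + (d + e)) ^ d) * (r d ^ e) ^ d := by
          rw [mul_pow, ← pow_mul, ← pow_mul, Nat.mul_comm d e]
          ring
  exact le_of_mul_le_mul_right h3 (pow_pos (pow_pos hrd _) _)

theorem an_three (hN : 0 < N) {T A : Diag} (hT : T13 T) (hA : T33 A) (i d e : ℕ) :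
    ‖an hN T A (i + d)‖ ^ (d + e) ≤ ‖an hN T A i‖ ^ e * ‖an hN T A (i + (d + e))‖ ^ d :=
  three_terms (J := fun n => ‖an hN T A n‖) (fun _ => norm_nonneg _) (an_conv hN hT hA) i d e

/-- all terms are positive if the first two are -/
theorem an_pos (hN : 0 < N) {T A : Diag} (hT : T13 T) (hA : T33 A) (h0 : an hN T A 0 ≠ 0)
    (h1 : an hN T A 1 ≠ 0) (n : ℕ) : ∃ r : ℝ, 0 < r ∧ an hN T A n = r := by
  obtain ⟨r, hr, e⟩ := an_nonneg hN hT hA n
  refine ⟨r, lt_of_le_of_ne hr fun h => ?_, e⟩
  rw [← h, Complex.ofReal_zero] at e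
  rcases Nat.eq_zero_or_pos n with rfl | hn
  · exact h0 e
  · have := an_three hN hT hA 0 1 (n - 1)
    have e1 : 0 + (1 + (n - 1)) = n := by omega
    rw [e1, e, norm_zero, zero_pow one_ne_zero, mul_zero, Nat.zero_add] at this
    have := pow_pos (norm_pos_iff.2 h1) (1 + (n - 1))
    linarith

end Pool.Agent.Q66.TG
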