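import Pool.Agent.W709.QAT.Fin
import Pool.Agent.W591.QAT.Reid
import Pool.Agent.W193.QAT.R1
import Pool.Agent.Q66.TB.Base

/-!
# The adjoint of a tangle diagram at the Kashaev root of unity

The adjoint, for the pairing `∑ conj (g (reversed s)) f s`, of the operator of a diagram is the
operator of the diagram rotated by a half turn, with all crossings changed.
-/

set_option autoImplicit false

namespace Pool.Agent.Q66.TG

open Finset Matrix Pool.Agent.W715.VC Pool.Agent.H550R3.Jones
open Pool.Agent.W709.QAT (Piece run cup cap kap Diag)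
open Pool.Agent.W591.QAT (act_twist act_cup act_cap)

variable {N : ℕ}

/-! ### sums over lists -/

/-- sum over the lists of length `n` -/
noncomputable def SL : ℕ → (List (Fin N) → ℂ) → ℂ
  | 0, F => F []
  | n + 1, F => ∑ a, SL n fun s => F (a :: s)

lemma SL_congr : ∀ (n : ℕ) {F G : List (Fin N) → ℂ}, (∀ s, s.length = n → F s = G s) →
    SL n F = SL n G
  | 0, F, G, h => h [] rfl
  | n + 1, F, G, h => sum_congr rfl fun a _ => SL_congr n fun s hs => h (a :: s) (by simp [hs])

lemma SL_sum {ι : Type*} (S : Finset ι) : ∀ (n : ℕ) (G : ι → List (Fin N) → ℂ),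
    SL n (fun s => ∑ x ∈ S, G x s) = ∑ x ∈ S, SL n (G x)
  | 0, G => rfl
  | n + 1, G => by
    unfold SL
    rw [sum_comm]
    exact sum_congr rfl fun a _ => SL_sum S n fun x s => G x (a :: s)

lemma SL_mul : ∀ (n : ℕ) (c : ℂ) (F : List (Fin N) → ℂ),
    SL n (fun s => c * F s) = c * SL n F
  | 0, c, F => rfl
  | n + 1, c, F => by
    unfold SL
    rw [mul_sum]
    exact sum_congr rfl fun a _ => SL_mul n c fun s => F (a :: s)

lemma SL_conj : ∀ (n : ℕ) (F : List (Fin N) → ℂ),
    (starRingEnd ℂ) (SL n F) = SL n fun s => (starRingEnd ℂ) (F s)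
  | 0, F => rfl
  | n + 1, F => by
    unfold SL
    rw [map_sum]
    exact sum_congr rfl fun a _ => SL_conj n fun s => F (a :: s)

lemma SL_add : ∀ (k n : ℕ) (F : List (Fin N) → ℂ),
    SL (k + n) F = SL k fun s => SL n fun t => F (s ++ t)
  | 0, n, F => by rw [Nat.zero_add]; rfl
  | k + 1, n, F => by
    rw [Nat.succ_add]
    change ∑ a, SL (k + n) (fun s => F (a :: s)) = ∑ a, SL k fun s => SL n fun t => F (a :: (s ++ t))
    exact sum_congr rfl fun a _ => SL_add k n fun s => F (a :: s)

lemma SL_concat (n : ℕ) (F : List (Fin N) → ℂ) :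
    SL (n + 1) F = ∑ a, SL n fun s => F (s ++ [a]) := by
  rw [SL_add n 1 F]
  change SL n (fun s => ∑ a, F (s ++ [a])) = _
  exact SL_sum _ n fun a s => F (s ++ [a])

lemma SL_rev : ∀ (n : ℕ) (F : List (Fin N) → ℂ), SL n (fun s => F s.reverse) = SL n F
  | 0, F => rfl
  | n + 1, F => by
    rw [SL_concat n F]
    change ∑ a, SL n (fun s => F (a :: s).reverse) = _
    refine sum_congr rfl fun a _ => ?_
    rw [← SL_rev n fun s => F (s ++ [a])]
    refine SL_congr n fun s _ => ?_
    rw [List.reverse_cons]

/-- the lists of length `i + (2 + j)` -/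
lemma SL_split (i j : ℕ) (F : List (Fin N) → ℂ) :
    SL (i + (2 + j)) F = SL i fun s => ∑ a, ∑ b, SL j fun t => F (s ++ a :: b :: t) := by
  rw [SL_add i (2 + j) F]
  refine SL_congr i fun s _ => ?_
  rw [SL_add 2 j]
  rfl

/-! ### the pairing -/

/-- the pairing of vectors on `n` strands -/
noncomputable def pr (n : ℕ) (g f : List (Fin N) → ℂ) : ℂ :=
  SL n fun s => (starRingEnd ℂ) (g s.reverse) * f s

lemma pr_conj (n : ℕ) (g f : List (Fin N) → ℂ) : (starRingEnd ℂ) (pr n g f) = pr n f g := by
  unfold pr
  rw [SL_conj, ← SL_rev]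
  refine SL_congr n fun s _ => ?_
  rw [map_mul, Complex.conj_conj, List.reverse_reverse, mul_comm]

lemma pr_congr {n : ℕ} {g g' f f' : List (Fin N) → ℂ} (hg : ∀ s, s.length = n → g s = g' s)
    (hf : ∀ s, s.length = n → f s = f' s) : pr n g f = pr n g' f' := by
  unfold pr
  refine SL_congr n fun s hs => ?_
  rw [hg _ (by rw [List.length_reverse, hs]), hf _ hs]

/-! ### the adjoint pieces -/

lemma cup_eq (p : Fin N × Fin N) : cup N (rt N) p = Pool.Agent.W709.RT.cup N (rt N) p := rfl

lemma cap_cj (hN : 0 < N) (a b : Fin N) :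
    cap N (rt N) (a, b) = (starRingEnd ℂ) (cup N (rt N) (b, a)) :=
  Pool.Agent.Q66.TB.cap_conj hN a b

lemma cup_cj (hN : 0 < N) (a b : Fin N) :
    cup N (rt N) (a, b) = (starRingEnd ℂ) (cap N (rt N) (b, a)) := by
  rw [cap_cj hN, Complex.conj_conj]

lemma sh_one : sh (1 : M2 N) = 1 := by
  ext p q
  unfold sh
  rw [Matrix.one_apply, Matrix.one_apply]
  by_cases h : p = q
  · subst h
    simp
  · rw [if_neg h, if_neg, map_zero]
    rintro h2
    apply h
    rw [Prod.mk.injEq] at h2
    exact Prod.ext h2.2.symm h2.1.symm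

lemma sh_pow (A : M2 N) (m : ℕ) : sh (A ^ m) = sh A ^ m := by
  induction m with
  | zero => rw [pow_zero, pow_zero, sh_one]
  | succ m ih => rw [pow_succ, sh_mul, ih, pow_succ', ]

/-- the crossings -/
noncomputable def cr (N : ℕ) (σ : Bool) (m : ℕ) : M2 N :=
  (if σ then crossP N (rt N) else crossN N (rt N)) ^ m

lemma cr_cj (hN : 0 < N) (σ : Bool) (m : ℕ) (a b c d : Fin N) :
    (starRingEnd ℂ) (cr N σ m (a, b) (c, d)) = cr N (!σ) m (d, c) (b, a) := by
  have h : sh (cr N σ m) = cr N (!σ) m := by
    unfold cr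
    rw [sh_pow]
    cases σ
    · simp only [Bool.false_eq_true, if_false, Bool.not_false, if_true]
      exact congrArg (· ^ m) (sh_QQ hN)
    · simp only [if_true, Bool.not_true, Bool.false_eq_true, if_false]
      exact congrArg (· ^ m) (sh_PP hN)
  rw [← h]
  rfl

/-- the number of strands above a piece -/
def out : Piece → ℕ → ℕ
  | .cup _, n => n + 2
  | .cap _, n => n - 2
  | .twist _ _ _, n => n

/-- the piece fits on `n` strands -/
def Fit : Piece → ℕ → Prop
  | .cup i, n => i ≤ n
  | .cap i, n => i + 2 ≤ n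
  | .twist i _ _, n => i + 2 ≤ n

/-- the piece rotated by a half turn, with all crossings changed; `n` strands below -/
def dl : Piece → ℕ → Piece
  | .cup i, n => .cap (n - i)
  | .cap i, n => .cup (n - 2 - i)
  | .twist i σ m, n => .twist (n - 2 - i) (!σ) m

theorem pr_act (hN : 0 < N) (P : Piece) (n : ℕ) (h : Fit P n) (g f : List (Fin N) → ℂ) :
    pr (out P n) g (P.act N (rt N) f) = pr n ((dl P n).act N (rt N) g) f := by
  cases P with
  | cup i =>
    obtain ⟨j, rfl⟩ : ∃ j, n = i + j := ⟨n - i, by simp only [Fit] at h; omega⟩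
    unfold pr out dl
    have e1 : i + j + 2 = i + (2 + j) := by omega
    have e2 : i + j - i = j := by omega
    dsimp only
    rw [e1, e2, SL_split, SL_add]
    refine SL_congr i fun s hs => ?_
    simp only [← SL_sum]
    refine SL_congr j fun t ht => ?_
    rw [List.reverse_append, act_cap j g t.reverse s.reverse (by rw [List.length_reverse, ht]),
      map_sum, sum_mul, Fintype.sum_prod_type, sum_comm]
    refine sum_congr rfl fun b _ => sum_congr rfl fun a _ => ?_
    rw [act_cup i f s t a b hs, map_mul, ← cup_cj hN]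
    have e3 : (s ++ a :: b :: t).reverse = t.reverse ++ b :: a :: s.reverse := by simp
    rw [e3]
    ring
  | cap i =>
    obtain ⟨j, rfl⟩ : ∃ j, n = i + (2 + j) := ⟨n - i - 2, by simp only [Fit] at h; omega⟩
    unfold pr out dl
    have e1 : i + (2 + j) - 2 = i + j := by omega
    have e2 : i + (2 + j) - 2 - i = j := by omega
    dsimp only
    rw [e1, SL_split, SL_add, show i + j - i = j by omega]
    refine SL_congr i fun s hs => ?_
    simp only [← SL_sum]
    refine SL_congr j fun t ht => ?_
    rw [act_cap i f s t hs, mul_sum, Fintype.sum_prod_type]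
    refine sum_congr rfl fun a _ => sum_congr rfl fun b _ => ?_
    have e3 : (s ++ a :: b :: t).reverse = t.reverse ++ b :: a :: s.reverse := by simp
    rw [e3, act_cup j g t.reverse s.reverse b a (by rw [List.length_reverse, ht]), map_mul,
      List.reverse_append, cap_cj hN]
    ring
  | twist i σ m =>
    obtain ⟨j, rfl⟩ : ∃ j, n = i + (2 + j) := ⟨n - i - 2, by simp only [Fit] at h; omega⟩
    unfold pr out dl
    have e2 : i + (2 + j) - 2 - i = j := by omega
    dsimp only
    rw [e2, SL_split, SL_split]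
    refine SL_congr i fun s hs => ?_
    simp only [← SL_sum]
    refine SL_congr j fun t ht => ?_
    have e3 : ∀ a b : Fin N, (s ++ a :: b :: t).reverse = t.reverse ++ b :: a :: s.reverse := by
      intro a b
      simp
    simp only [e3, act_twist i σ m f s t _ _ hs,
      act_twist j (!σ) m g t.reverse s.reverse _ _ (by rw [List.length_reverse, ht] :
        t.reverse.length = j), mul_sum, map_sum, sum_mul, Fintype.sum_prod_type]
    have hR : ∀ a b c d : Fin N,
        (starRingEnd ℂ) (((if (!σ) = true then crossP N (rt N) else crossN N (rt N)) ^ m) (b, a)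
          (c, d) * g (t.reverse ++ c :: d :: s.reverse)) * f (s ++ a :: b :: t) =
        (starRingEnd ℂ) (g (t.reverse ++ c :: d :: s.reverse)) *
          (((if σ = true then crossP N (rt N) else crossN N (rt N)) ^ m) (d, c) (a, b) *
            f (s ++ a :: b :: t)) := by
      intro a b c d
      have h1 := cr_cj hN (!σ) m b a c d
      unfold cr at h1
      rw [Bool.not_not] at h1
      rw [map_mul, h1]
      ring
    simp only [hR]
    -- left: a b p q ; right: a' b' c d with c = b, d = a
    calc ∑ a, ∑ b, ∑ p, ∑ q, (starRingEnd ℂ) (g (t.reverse ++ b :: a :: s.reverse)) *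
          (((if σ = true then crossP N (rt N) else crossN N (rt N)) ^ m) (a, b) (p, q) *
            f (s ++ p :: q :: t))
        = ∑ a, ∑ p, ∑ q, ∑ b, (starRingEnd ℂ) (g (t.reverse ++ b :: a :: s.reverse)) *
          (((if σ = true then crossP N (rt N) else crossN N (rt N)) ^ m) (a, b) (p, q) *
            f (s ++ p :: q :: t)) := by
          refine sum_congr rfl fun a _ => ?_
          rw [sum_comm]
          refine sum_congr rfl fun p _ => ?_
          rw [sum_comm]
      _ = ∑ p, ∑ q, ∑ a, ∑ b, (starRingEnd ℂ) (g (t.reverse ++ b :: a :: s.reverse)) *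
          (((if σ = true then crossP N (rt N) else crossN N (rt N)) ^ m) (a, b) (p, q) *
            f (s ++ p :: q :: t)) := by
          rw [sum_comm]
          refine sum_congr rfl fun p _ => ?_
          rw [sum_comm]
      _ = _ := by
          refine sum_congr rfl fun p _ => sum_congr rfl fun q _ => ?_
          rw [sum_comm]

/-! ### diagrams -/

/-- the diagram fits on `n` strands -/
def FitD : Diag → ℕ → Prop
  | [], _ => True
  | P :: D, n => Fit P n ∧ FitD D (out P n)

/-- the number of strands above a diagram -/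
def outD : Diag → ℕ → ℕ
  | [], n => n
  | P :: D, n => outD D (out P n)

/-- the diagram rotated by a half turn, with all crossings changed; `n` strands below -/
def dlD : Diag → ℕ → Diag
  | [], _ => []
  | P :: D, n => dlD D (out P n) ++ [dl P n]

lemma run_append (v : ℂ) (D D' : Diag) (f : List (Fin N) → ℂ) :
    run N v (D ++ D') f = run N v D' (run N v D f) := by
  unfold run
  rw [List.foldl_append]

lemma run_cons (v : ℂ) (P : Piece) (D : Diag) (f : List (Fin N) → ℂ) :
    run N v (P :: D) f = run N v D (P.act N v f) := rfl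

theorem pr_run (hN : 0 < N) : ∀ (D : Diag) (n : ℕ), FitD D n → ∀ g f : List (Fin N) → ℂ,
    pr (outD D n) g (run N (rt N) D f) = pr n (run N (rt N) (dlD D n) g) f
  | [], n, _, g, f => rfl
  | P :: D, n, h, g, f => by
    rw [run_cons]
    change pr (outD D (out P n)) g (run N (rt N) D (P.act N (rt N) f)) = _
    rw [pr_run hN D (out P n) h.2 g, pr_act hN P n h.1]
    change _ = pr n (run N (rt N) (dlD D (out P n) ++ [dl P n]) g) f
    rw [run_append]
    rfl

/-- the other side -/
theorem pr_run' (hN : 0 < N) (D : Diag) (n : ℕ) (h : FitD D n) (f g : List (Fin N) → ℂ) :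
    pr (outD D n) (run N (rt N) D f) g = pr n f (run N (rt N) (dlD D n) g) := by
  rw [← pr_conj, pr_run hN D n h, pr_conj]

/-- the highest weight vector on one strand -/
noncomputable def e0 (hN : 0 < N) : List (Fin N) → ℂ := fun s => if s = [⟨0, hN⟩] then 1 else 0

lemma pr_e0 (hN : 0 < N) (f : List (Fin N) → ℂ) : pr 1 (e0 hN) f = f [⟨0, hN⟩] := by
  unfold pr
  change ∑ a, (starRingEnd ℂ) (e0 hN [a].reverse) * f [a] = _
  rw [sum_eq_single (⟨0, hN⟩ : Fin N)]
  · simp [e0]
  · intro a _ ha
    have : e0 hN ([a].reverse) = 0 := by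
      unfold e0
      rw [if_neg]
      simpa using ha
    rw [this, map_zero, zero_mul]
  · intro h
    exact absurd (mem_univ _) h

end Pool.Agent.Q66.TG
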