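import Pool.Agent.Q66.TG.Adj

/-!
# The operators of tangle diagrams commute with `E`
-/

set_option autoImplicit false

namespace Pool.Agent.Q66.TG

open Finset Matrix Pool.Agent.W715.VC Pool.Agent.H550R3.Jones
open Pool.Agent.W709.QAT (Piece run cup cap kap Diag)
open Pool.Agent.W591.QAT (act_twist act_cup act_cap)

variable {N : ℕ}

/-- the weight `v^{N-1-2x}` -/
noncomputable def k1 (x : Fin N) : ℂ := rt N ^ ((N : ℤ) - 1 - 2 * (x : ℕ))

/-- the operator `K ⊗ ⋯ ⊗ K` -/
noncomputable def kk (s : List (Fin N)) : ℂ := (s.map k1).prod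

lemma kk_cons (a : Fin N) (s : List (Fin N)) : kk (a :: s) = k1 a * kk s := by
  simp [kk]

lemma kk_append (s t : List (Fin N)) : kk (s ++ t) = kk s * kk t := by
  simp [kk]

/-- the operator `E` on many strands -/
noncomputable def EL : List (Fin N) → (List (Fin N) → ℂ) → ℂ
  | [], _ => 0
  | a :: r, f => (∑ a', Eo N a a' * f (a' :: r)) * kk r + EL r fun r => f (a :: r)

lemma EL_congr : ∀ (s : List (Fin N)) {f g : List (Fin N) → ℂ},
    (∀ t, t.length = s.length → f t = g t) → EL s f = EL s g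
  | [], f, g, h => rfl
  | a :: r, f, g, h => by
    unfold EL
    rw [EL_congr r fun t ht => h (a :: t) (by simp [ht])]
    congr 2
    exact sum_congr rfl fun a' _ => by rw [h (a' :: r) (by simp)]

lemma EL_mul : ∀ (s : List (Fin N)) (c : ℂ) (f : List (Fin N) → ℂ),
    EL s (fun r => c * f r) = c * EL s f
  | [], c, f => by simp [EL]
  | a :: r, c, f => by
    unfold EL
    rw [EL_mul r c fun r => f (a :: r), mul_add, ← mul_assoc, mul_sum]
    congr 2
    exact sum_congr rfl fun a' _ => by ring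

lemma EL_sum {ι : Type*} (S : Finset ι) : ∀ (s : List (Fin N)) (G : ι → List (Fin N) → ℂ),
    EL s (fun r => ∑ x ∈ S, G x r) = ∑ x ∈ S, EL s (G x)
  | [], G => by simp [EL]
  | a :: r, G => by
    unfold EL
    rw [EL_sum S r fun x r => G x (a :: r), sum_add_distrib, ← sum_mul]
    congr 2
    simp only [mul_sum]
    rw [sum_comm]

lemma EL_zero (s : List (Fin N)) : EL s (fun _ => 0) = 0 := by
  have := EL_mul s 0 (fun _ => 0)
  simpa using this

/-! ### two strands -/

lemma Ko_apply (a b : Fin N) : Ko N a b = if a = b then k1 a else 0 := by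
  unfold Ko WM.K k1
  rw [diagonal_apply, one_mul]
  rfl

lemma EE_apply (a b : Fin N) (q : Fin N × Fin N) :
    EE N (a, b) q = Eo N a q.1 * (if b = q.2 then k1 b else 0) + (if a = q.1 then 1 else 0) *
      Eo N b q.2 := by
  unfold EE
  rw [Matrix.add_apply, kroneckerMap_apply, kroneckerMap_apply, Ko_apply, Matrix.one_apply]

lemma EE_sum (a b : Fin N) (x : Fin N × Fin N → ℂ) :
    ∑ q, EE N (a, b) q * x q =
      (∑ a', Eo N a a' * x (a', b)) * k1 b + ∑ b', Eo N b b' * x (a, b') := by
  have h1 : ∑ q : Fin N × Fin N, Eo N a q.1 * (if b = q.2 then k1 b else 0) * x q =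
      (∑ a', Eo N a a' * x (a', b)) * k1 b := by
    rw [Fintype.sum_prod_type, sum_mul]
    refine sum_congr rfl fun a' _ => ?_
    rw [sum_eq_single b]
    · simp only [if_true]
      ring
    · intro b' _ hb
      simp only
      rw [if_neg (Ne.symm hb)]
      ring
    · intro h
      exact absurd (mem_univ _) h
  have h2 : ∑ q : Fin N × Fin N, (if a = q.1 then 1 else 0) * Eo N b q.2 * x q =
      ∑ b', Eo N b b' * x (a, b') := by
    rw [Fintype.sum_prod_type, sum_eq_single a]
    · refine sum_congr rfl fun b' _ => ?_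
      simp
    · intro a' _ ha
      refine sum_eq_zero fun b' _ => ?_
      simp only
      rw [if_neg (Ne.symm ha)]
      ring
    · intro h
      exact absurd (mem_univ _) h
  rw [← h1, ← h2, ← sum_add_distrib]
  refine sum_congr rfl fun q _ => ?_
  rw [EE_apply]
  ring

/-- `E` on a list which starts with two strands -/
lemma EL_two (a b : Fin N) (t : List (Fin N)) (g : List (Fin N) → ℂ) :
    EL (a :: b :: t) g = (∑ q : Fin N × Fin N, EE N (a, b) q * g (q.1 :: q.2 :: t)) * kk t +
      EL t fun r => g (a :: b :: r) := by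
  rw [EE_sum a b fun q => g (q.1 :: q.2 :: t)]
  change (∑ a', Eo N a a' * g (a' :: b :: t)) * kk (b :: t) +
    ((∑ b', Eo N b b' * g (a :: b' :: t)) * kk t + EL t fun r => g (a :: b :: r)) = _
  rw [kk_cons]
  ring

lemma EE_W : EE N = (W (rt N) N).E := rfl

lemma adm' (N : ℕ) : Adm N (rt N) := adm N

lemma EE_cup (a b : Fin N) : ∑ q, EE N (a, b) q * cup N (rt N) q = 0 := by
  have h := Pool.Agent.W193.QAT.E_cup (adm' N)
  exact congrFun h (a, b)

lemma cap_EE (q : Fin N × Fin N) : ∑ p, cap N (rt N) p * EE N p q = 0 := by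
  have h := Pool.Agent.W193.QAT.cap_E (adm' N)
  exact congrFun h q

lemma cup_kk (a b : Fin N) : cup N (rt N) (a, b) * (k1 a * k1 b) = cup N (rt N) (a, b) := by
  by_cases h : (a : ℕ) + b = N - 1
  · have hN : 0 < N := by have := a.isLt; omega
    have : k1 a * k1 b = 1 := by
      unfold k1
      rw [← zpow_add₀ (rt_ne N)]
      have : ((N : ℤ) - 1 - 2 * ((a : ℕ) : ℤ)) + ((N : ℤ) - 1 - 2 * ((b : ℕ) : ℤ)) = 0 := by omega
      rw [this, zpow_zero]
    rw [this, mul_one]
  · have : cup N (rt N) (a, b) = 0 := by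
      unfold cup
      rw [if_neg h]
    rw [this, zero_mul]

lemma cap_kk (a b : Fin N) : cap N (rt N) (a, b) * (k1 a * k1 b) = cap N (rt N) (a, b) := by
  by_cases h : (a : ℕ) + b = N - 1
  · have hN : 0 < N := by have := a.isLt; omega
    have : k1 a * k1 b = 1 := by
      unfold k1
      rw [← zpow_add₀ (rt_ne N)]
      have : ((N : ℤ) - 1 - 2 * ((a : ℕ) : ℤ)) + ((N : ℤ) - 1 - 2 * ((b : ℕ) : ℤ)) = 0 := by omega
      rw [this, zpow_zero]
    rw [this, mul_one]
  · have : cap N (rt N) (a, b) = 0 := by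
      unfold cap
      rw [if_neg h]
    rw [this, zero_mul]

/-! ### crossings -/

lemma cr_EE (σ : Bool) (m : ℕ) : cr N σ m * EE N = EE N * cr N σ m := by
  unfold cr
  have h : Commute (if σ then crossP N (rt N) else crossN N (rt N)) (EE N) := by
    cases σ
    · simp only [Bool.false_eq_true, if_false]
      exact QQ_EE
    · simp only [if_true]
      exact PP_EE
  exact (h.pow_left m).eq

lemma cr_sum (σ : Bool) (m : ℕ) (a b : Fin N) (x : Fin N × Fin N → ℂ) :
    ∑ q, EE N (a, b) q * (∑ p, cr N σ m q p * x p) =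
      ∑ q, cr N σ m (a, b) q * (∑ p, EE N q p * x p) := by
  have h := cr_EE (N := N) σ m
  have h1 : (EE N *ᵥ (cr N σ m *ᵥ x)) (a, b) = (cr N σ m *ᵥ (EE N *ᵥ x)) (a, b) := by
    rw [Matrix.mulVec_mulVec, Matrix.mulVec_mulVec, h]
  exact h1

/-- crossings preserve the weight -/
lemma cr_wt (σ : Bool) (m : ℕ) {p q : Fin N × Fin N} (h : cr N σ m p q ≠ 0) :
    (p.1 : ℕ) + p.2 = q.1 + q.2 := by
  induction m generalizing p with
  | zero =>
    unfold cr at h
    rw [pow_zero, Matrix.one_apply] at h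
    split_ifs at h with h1
    · rw [h1]
    · exact absurd rfl h
  | succ m ih =>
    unfold cr at h
    rw [pow_succ', Matrix.mul_apply] at h
    obtain ⟨r, _, hr⟩ := exists_ne_zero_of_sum_ne_zero h
    have h1 := left_ne_zero_of_mul hr
    have h2 := right_ne_zero_of_mul hr
    have h3 := ih (p := r) h2
    rw [← h3]
    cases σ
    · simp only [Bool.false_eq_true, if_false] at h1
      unfold crossN at h1
      split_ifs at h1 with h4
      · exact h4.1
      · exact absurd rfl h1
    · simp only [if_true] at h1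
      unfold crossP at h1
      split_ifs at h1 with h4
      · exact h4.1
      · exact absurd rfl h1

lemma k1_add {a b c d : Fin N} (h : (a : ℕ) + b = c + d) : k1 a * k1 b = k1 c * k1 d := by
  unfold k1
  rw [← zpow_add₀ (rt_ne N), ← zpow_add₀ (rt_ne N)]
  congr 1
  omega

lemma cr_kk (σ : Bool) (m : ℕ) (p q : Fin N × Fin N) :
    cr N σ m p q * (k1 q.1 * k1 q.2) = cr N σ m p q * (k1 p.1 * k1 p.2) := by
  by_cases h : cr N σ m p q = 0
  · rw [h, zero_mul, zero_mul]
  · rw [k1_add (cr_wt σ m h)]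

/-! ### the pieces commute with `E` -/

theorem EL_cup (a b : Fin N) (t : List (Fin N)) : ∀ (T : List (Fin N)) (f : List (Fin N) → ℂ),
    EL (T ++ a :: b :: t) ((Piece.cup T.length).act N (rt N) f) =
      cup N (rt N) (a, b) * EL (T ++ t) f
  | [], f => by
    rw [List.nil_append, List.nil_append, EL_two]
    have h1 : ∑ q : Fin N × Fin N, EE N (a, b) q *
        (Piece.cup 0).act N (rt N) f (q.1 :: q.2 :: t) = 0 := by
      have h2 : ∀ q : Fin N × Fin N, EE N (a, b) q *
          (Piece.cup 0).act N (rt N) f (q.1 :: q.2 :: t) =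
          f t * (EE N (a, b) q * cup N (rt N) q) := by
        intro q
        have := act_cup (v := rt N) 0 f [] t q.1 q.2 rfl
        rw [List.nil_append, List.nil_append] at this
        rw [this]
        ring
      rw [sum_congr rfl fun q _ => h2 q, ← mul_sum, EE_cup, mul_zero]
    change (∑ q : Fin N × Fin N, EE N (a, b) q *
        (Piece.cup 0).act N (rt N) f (q.1 :: q.2 :: t)) * kk t + _ = _
    rw [h1, zero_mul, zero_add, ← EL_mul]
    refine EL_congr t fun r _ => ?_
    exact act_cup (v := rt N) 0 f [] r a b rfl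
  | c :: T, f => by
    change (∑ c', Eo N c c' * (Piece.cup (T.length + 1)).act N (rt N) f
      (c' :: (T ++ a :: b :: t))) * kk (T ++ a :: b :: t) +
      EL (T ++ a :: b :: t) ((Piece.cup T.length).act N (rt N) fun r => f (c :: r)) =
      cup N (rt N) (a, b) * ((∑ c', Eo N c c' * f (c' :: (T ++ t))) * kk (T ++ t) +
        EL (T ++ t) fun r => f (c :: r))
    rw [EL_cup a b t T, mul_add]
    congr 1
    have h1 : ∀ c' : Fin N, (Piece.cup (T.length + 1)).act N (rt N) f
        (c' :: (T ++ a :: b :: t)) = cup N (rt N) (a, b) * f (c' :: (T ++ t)) := fun c' =>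
      act_cup (v := rt N) (T.length + 1) f (c' :: T) t a b rfl
    simp only [h1]
    have h2 : kk (T ++ a :: b :: t) = (k1 a * k1 b) * kk (T ++ t) := by
      rw [kk_append, kk_append, kk_cons, kk_cons]
      ring
    rw [h2]
    have h3 : ∀ c' : Fin N, Eo N c c' * (cup N (rt N) (a, b) * f (c' :: (T ++ t))) =
        cup N (rt N) (a, b) * (Eo N c c' * f (c' :: (T ++ t))) := fun c' => by ring
    simp only [h3, ← mul_sum]
    linear_combination ((∑ c', Eo N c c' * f (c' :: (T ++ t))) * kk (T ++ t)) * cup_kk a b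

theorem EL_cap (t : List (Fin N)) : ∀ (T : List (Fin N)) (f : List (Fin N) → ℂ),
    EL (T ++ t) ((Piece.cap T.length).act N (rt N) f) =
      ∑ p : Fin N × Fin N, cap N (rt N) p * EL (T ++ p.1 :: p.2 :: t) f
  | [], f => by
    have h0 : EL ([] ++ t) ((Piece.cap ([] : List (Fin N)).length).act N (rt N) f) =
        EL t fun r => ∑ p : Fin N × Fin N, cap N (rt N) p * f (p.1 :: p.2 :: r) := by
      refine EL_congr t fun r _ => ?_
      exact act_cap (v := rt N) 0 f [] r rfl
    rw [h0, EL_sum]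
    have h1 : ∀ p : Fin N × Fin N, cap N (rt N) p * EL ([] ++ p.1 :: p.2 :: t) f =
        cap N (rt N) p * (∑ q : Fin N × Fin N, EE N p q * f (q.1 :: q.2 :: t)) * kk t +
          cap N (rt N) p * EL t fun r => f (p.1 :: p.2 :: r) := by
      intro p
      rw [List.nil_append, EL_two]
      ring
    rw [sum_congr rfl fun p _ => h1 p, sum_add_distrib, ← sum_mul]
    have h2 : ∑ p : Fin N × Fin N, cap N (rt N) p * ∑ q : Fin N × Fin N,
        EE N p q * f (q.1 :: q.2 :: t) = 0 := by
      simp only [mul_sum]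
      rw [sum_comm]
      refine sum_eq_zero fun q _ => ?_
      have h3 : ∀ p : Fin N × Fin N, cap N (rt N) p * (EE N p q * f (q.1 :: q.2 :: t)) =
          (cap N (rt N) p * EE N p q) * f (q.1 :: q.2 :: t) := fun p => by ring
      rw [sum_congr rfl fun p _ => h3 p, ← sum_mul, cap_EE, zero_mul]
    rw [h2, zero_mul, zero_add]
    exact sum_congr rfl fun p _ => EL_mul t _ _
  | c :: T, f => by
    change (∑ c', Eo N c c' * (Piece.cap (T.length + 1)).act N (rt N) f
      (c' :: (T ++ t))) * kk (T ++ t) +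
      EL (T ++ t) ((Piece.cap T.length).act N (rt N) fun r => f (c :: r)) =
      ∑ p : Fin N × Fin N, cap N (rt N) p * ((∑ c', Eo N c c' *
        f (c' :: (T ++ p.1 :: p.2 :: t))) * kk (T ++ p.1 :: p.2 :: t) +
        EL (T ++ p.1 :: p.2 :: t) fun r => f (c :: r))
    rw [EL_cap t T]
    simp only [mul_add, sum_add_distrib]
    congr 1
    have h1 : ∀ c' : Fin N, (Piece.cap (T.length + 1)).act N (rt N) f (c' :: (T ++ t)) =
        ∑ p : Fin N × Fin N, cap N (rt N) p * f (c' :: (T ++ p.1 :: p.2 :: t)) := fun c' =>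
      act_cap (v := rt N) (T.length + 1) f (c' :: T) t rfl
    simp only [h1, sum_mul, mul_sum]
    rw [sum_comm]
    refine sum_congr rfl fun p _ => sum_congr rfl fun c' _ => ?_
    have h2 : kk (T ++ p.1 :: p.2 :: t) = (k1 p.1 * k1 p.2) * kk (T ++ t) := by
      rw [kk_append, kk_append, kk_cons, kk_cons]
      ring
    rw [h2]
    linear_combination -(Eo N c c' * f (c' :: (T ++ p.1 :: p.2 :: t)) * kk (T ++ t)) *
      cap_kk p.1 p.2

theorem EL_twist (σ : Bool) (m : ℕ) (t : List (Fin N)) :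
    ∀ (T : List (Fin N)) (a b : Fin N) (f : List (Fin N) → ℂ),
    EL (T ++ a :: b :: t) ((Piece.twist T.length σ m).act N (rt N) f) =
      ∑ p : Fin N × Fin N, cr N σ m (a, b) p * EL (T ++ p.1 :: p.2 :: t) f
  | [], a, b, f => by
    rw [List.nil_append, EL_two]
    have ha : ∀ (q : Fin N × Fin N) (r : List (Fin N)),
        (Piece.twist ([] : List (Fin N)).length σ m).act N (rt N) f (q.1 :: q.2 :: r) =
        ∑ p : Fin N × Fin N, cr N σ m q p * f (p.1 :: p.2 :: r) := fun q r =>
      act_twist (v := rt N) 0 σ m f [] r q.1 q.2 rfl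
    simp only [ha]
    have hb : ∀ r : List (Fin N),
        (Piece.twist ([] : List (Fin N)).length σ m).act N (rt N) f (a :: b :: r) =
        ∑ p : Fin N × Fin N, cr N σ m (a, b) p * f (p.1 :: p.2 :: r) := fun r => ha (a, b) r
    simp only [hb]
    rw [EL_sum, cr_sum σ m a b fun p => f (p.1 :: p.2 :: t), sum_mul, ← sum_add_distrib]
    refine sum_congr rfl fun p _ => ?_
    rw [List.nil_append, EL_two, EL_mul]
    ring
  | c :: T, a, b, f => by
    change (∑ c', Eo N c c' * (Piece.twist (T.length + 1) σ m).act N (rt N) f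
      (c' :: (T ++ a :: b :: t))) * kk (T ++ a :: b :: t) +
      EL (T ++ a :: b :: t) ((Piece.twist T.length σ m).act N (rt N) fun r => f (c :: r)) =
      ∑ p : Fin N × Fin N, cr N σ m (a, b) p * ((∑ c', Eo N c c' *
        f (c' :: (T ++ p.1 :: p.2 :: t))) * kk (T ++ p.1 :: p.2 :: t) +
        EL (T ++ p.1 :: p.2 :: t) fun r => f (c :: r))
    rw [EL_twist σ m t T a b]
    simp only [mul_add, sum_add_distrib]
    congr 1
    have h1 : ∀ c' : Fin N, (Piece.twist (T.length + 1) σ m).act N (rt N) f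
        (c' :: (T ++ a :: b :: t)) =
        ∑ p : Fin N × Fin N, cr N σ m (a, b) p * f (c' :: (T ++ p.1 :: p.2 :: t)) := fun c' =>
      act_twist (v := rt N) (T.length + 1) σ m f (c' :: T) t a b rfl
    simp only [h1, sum_mul, mul_sum]
    rw [sum_comm]
    refine sum_congr rfl fun p _ => sum_congr rfl fun c' _ => ?_
    have h2 : kk (T ++ p.1 :: p.2 :: t) = (k1 p.1 * k1 p.2) * kk (T ++ t) := by
      rw [kk_append, kk_append, kk_cons, kk_cons]
      ring
    have h3 : kk (T ++ a :: b :: t) = (k1 a * k1 b) * kk (T ++ t) := by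
      rw [kk_append, kk_append, kk_cons, kk_cons]
      ring
    rw [h2, h3]
    linear_combination -(Eo N c c' * f (c' :: (T ++ p.1 :: p.2 :: t)) * kk (T ++ t)) *
      cr_kk σ m (a, b) p

/-! ### lists of given length -/

lemma split_at {s : List (Fin N)} {i j : ℕ} (h : s.length = i + j) :
    ∃ T t : List (Fin N), T.length = i ∧ t.length = j ∧ s = T ++ t := by
  refine ⟨s.take i, s.drop i, ?_, ?_, (List.take_append_drop i s).symm⟩
  · rw [List.length_take]
    omega
  · rw [List.length_drop]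
    omega

lemma split_two {s : List (Fin N)} {i j : ℕ} (h : s.length = i + (2 + j)) :
    ∃ (T t : List (Fin N)) (a b : Fin N), T.length = i ∧ t.length = j ∧
      s = T ++ a :: b :: t := by
  obtain ⟨T, u, hT, hu, rfl⟩ := split_at h
  obtain ⟨w, t, hw, ht, rfl⟩ := split_at hu
  match w, hw with
  | [a, b], _ => exact ⟨T, t, a, b, hT, ht, rfl⟩

theorem EL_act (P : Piece) (n : ℕ) (h : Fit P n) (f : List (Fin N) → ℂ) (s : List (Fin N))
    (hs : s.length = out P n) :
    EL s (P.act N (rt N) f) = P.act N (rt N) (fun r => EL r f) s := by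
  cases P with
  | cup i =>
    obtain ⟨j, rfl⟩ : ∃ j, n = i + j := ⟨n - i, by simp only [Fit] at h; omega⟩
    obtain ⟨T, t, a, b, rfl, ht, rfl⟩ := split_two (s := s) (i := i) (j := j)
      (by rw [hs]; simp only [out]; omega)
    rw [EL_cup, act_cup _ _ T t a b rfl]
  | cap i =>
    obtain ⟨j, rfl⟩ : ∃ j, n = i + (2 + j) := ⟨n - i - 2, by simp only [Fit] at h; omega⟩
    obtain ⟨T, t, rfl, ht, rfl⟩ := split_at (s := s) (i := i) (j := j)
      (by rw [hs]; simp only [out]; omega)
    rw [EL_cap, act_cap _ _ T t rfl]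
  | twist i σ m =>
    obtain ⟨j, rfl⟩ : ∃ j, n = i + (2 + j) := ⟨n - i - 2, by simp only [Fit] at h; omega⟩
    obtain ⟨T, t, a, b, rfl, ht, rfl⟩ := split_two (s := s) (i := i) (j := j) hs
    rw [EL_twist, act_twist _ _ _ _ T t a b rfl]
    rfl

/-- a piece only uses the values on lists of the right length -/
theorem act_congr (P : Piece) (n : ℕ) (h : Fit P n) {f g : List (Fin N) → ℂ}
    (hfg : ∀ s, s.length = n → f s = g s) (s : List (Fin N)) (hs : s.length = out P n) :
    P.act N (rt N) f s = P.act N (rt N) g s := by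
  cases P with
  | cup i =>
    obtain ⟨j, rfl⟩ : ∃ j, n = i + j := ⟨n - i, by simp only [Fit] at h; omega⟩
    obtain ⟨T, t, a, b, rfl, ht, rfl⟩ := split_two (s := s) (i := i) (j := j)
      (by rw [hs]; simp only [out]; omega)
    rw [act_cup _ _ T t a b rfl, act_cup _ _ T t a b rfl, hfg _ (by simp [ht])]
  | cap i =>
    obtain ⟨j, rfl⟩ : ∃ j, n = i + (2 + j) := ⟨n - i - 2, by simp only [Fit] at h; omega⟩
    obtain ⟨T, t, rfl, ht, rfl⟩ := split_at (s := s) (i := i) (j := j)
      (by rw [hs]; simp only [out]; omega)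
    rw [act_cap _ _ T t rfl, act_cap _ _ T t rfl]
    refine sum_congr rfl fun p _ => ?_
    rw [hfg _ (by simp [ht]; omega)]
  | twist i σ m =>
    obtain ⟨j, rfl⟩ : ∃ j, n = i + (2 + j) := ⟨n - i - 2, by simp only [Fit] at h; omega⟩
    obtain ⟨T, t, a, b, rfl, ht, rfl⟩ := split_two (s := s) (i := i) (j := j) hs
    rw [act_twist _ _ _ _ T t a b rfl, act_twist _ _ _ _ T t a b rfl]
    refine sum_congr rfl fun p _ => ?_
    rw [hfg _ (by simp [ht]; omega)]

theorem run_congr : ∀ (D : Diag) (n : ℕ), FitD D n → ∀ {f g : List (Fin N) → ℂ},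
    (∀ s, s.length = n → f s = g s) → ∀ s : List (Fin N), s.length = outD D n →
    run N (rt N) D f s = run N (rt N) D g s
  | [], n, _, f, g, hfg, s, hs => hfg s hs
  | P :: D, n, h, f, g, hfg, s, hs => by
    rw [run_cons, run_cons]
    exact run_congr D (out P n) h.2 (fun t ht => act_congr P n h.1 hfg t ht) s hs

theorem EL_run : ∀ (D : Diag) (n : ℕ), FitD D n → ∀ (f : List (Fin N) → ℂ) (s : List (Fin N)),
    s.length = outD D n → EL s (run N (rt N) D f) = run N (rt N) D (fun r => EL r f) s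
  | [], n, _, f, s, hs => rfl
  | P :: D, n, h, f, s, hs => by
    rw [run_cons, run_cons, EL_run D (out P n) h.2 _ s hs]
    exact run_congr D (out P n) h.2 (fun t ht => EL_act P n h.1 f t ht) s hs

/-! ### the weight -/

/-- the sum of the indices -/
def lev (s : List (Fin N)) : ℕ := (s.map fun x : Fin N => (x : ℕ)).sum

lemma lev_append (s t : List (Fin N)) : lev (s ++ t) = lev s + lev t := by simp [lev]
lemma lev_cons (a : Fin N) (t : List (Fin N)) : lev (a :: t) = a + lev t := by simp [lev]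

/-- vectors of weight `N - 1` -/
def Wt (n : ℕ) (f : List (Fin N) → ℂ) : Prop :=
  ∀ s : List (Fin N), s.length = n → f s ≠ 0 → 2 * (lev s : ℤ) = ((n : ℤ) - 1) * ((N : ℤ) - 1)

theorem Wt_act (P : Piece) (n : ℕ) (h : Fit P n) {f : List (Fin N) → ℂ} (hf : Wt n f) :
    Wt (out P n) (P.act N (rt N) f) := by
  intro s hs hne
  cases P with
  | cup i =>
    obtain ⟨j, rfl⟩ : ∃ j, n = i + j := ⟨n - i, by simp only [Fit] at h; omega⟩
    obtain ⟨T, t, a, b, rfl, ht, rfl⟩ := split_two (s := s) (i := i) (j := j)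
      (by rw [hs]; simp only [out]; omega)
    rw [act_cup _ _ T t a b rfl] at hne
    have h1 := hf (T ++ t) (by simp [ht]) (right_ne_zero_of_mul hne)
    have h2 : (a : ℕ) + b = N - 1 := by
      by_contra h3
      apply left_ne_zero_of_mul hne
      unfold cup
      rw [if_neg h3]
    have hN : 0 < N := by have := a.isLt; omega
    rw [lev_append] at h1 ⊢
    rw [lev_cons, lev_cons]
    simp only [out]
    push_cast at h1 ⊢
    have h4 : ((a : ℕ) : ℤ) + ((b : ℕ) : ℤ) = (N : ℤ) - 1 := by omega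
    linear_combination h1 + 2 * h4
  | cap i =>
    obtain ⟨j, rfl⟩ : ∃ j, n = i + (2 + j) := ⟨n - i - 2, by simp only [Fit] at h; omega⟩
    obtain ⟨T, t, rfl, ht, rfl⟩ := split_at (s := s) (i := i) (j := j)
      (by rw [hs]; simp only [out]; omega)
    rw [act_cap _ _ T t rfl] at hne
    obtain ⟨p, _, hp⟩ := exists_ne_zero_of_sum_ne_zero hne
    have h1 := hf (T ++ p.1 :: p.2 :: t) (by simp [ht]; omega) (right_ne_zero_of_mul hp)
    have h2 : (p.1 : ℕ) + p.2 = N - 1 := by
      by_contra h3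
      apply left_ne_zero_of_mul hp
      unfold cap
      rw [if_neg h3]
    have hN : 0 < N := by have := p.1.isLt; omega
    rw [lev_append, lev_cons, lev_cons] at h1
    rw [lev_append]
    have h5 : out (Piece.cap T.length) (T.length + (2 + j)) = T.length + j := by
      simp only [out]
      omega
    rw [h5]
    push_cast at h1 ⊢
    have h4 : ((p.1 : ℕ) : ℤ) + ((p.2 : ℕ) : ℤ) = (N : ℤ) - 1 := by omega
    linear_combination h1 - 2 * h4
  | twist i σ m =>
    obtain ⟨j, rfl⟩ : ∃ j, n = i + (2 + j) := ⟨n - i - 2, by simp only [Fit] at h; omega⟩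
    obtain ⟨T, t, a, b, rfl, ht, rfl⟩ := split_two (s := s) (i := i) (j := j) hs
    rw [act_twist _ _ _ _ T t a b rfl] at hne
    obtain ⟨p, _, hp⟩ := exists_ne_zero_of_sum_ne_zero hne
    have h1 := hf (T ++ p.1 :: p.2 :: t) (by simp [ht]; omega) (right_ne_zero_of_mul hp)
    have h2 : (a : ℕ) + b = p.1 + p.2 := cr_wt σ m (p := (a, b)) (left_ne_zero_of_mul hp)
    rw [lev_append, lev_cons, lev_cons] at h1 ⊢
    simp only [out]
    have h4 : ((a : ℕ) : ℤ) + ((b : ℕ) : ℤ) = ((p.1 : ℕ) : ℤ) + ((p.2 : ℕ) : ℤ) := by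
      exact_mod_cast h2
    push_cast at h1 ⊢
    linear_combination h1 + 2 * h4

theorem Wt_run : ∀ (D : Diag) (n : ℕ), FitD D n → ∀ {f : List (Fin N) → ℂ}, Wt n f →
    Wt (outD D n) (run N (rt N) D f)
  | [], n, _, f, hf => hf
  | P :: D, n, h, f, hf => by
    rw [run_cons]
    exact Wt_run D (out P n) h.2 (Wt_act P n h.1 hf)

end Pool.Agent.Q66.TG
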