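import Pool.Agent.Q66.TG.Main

/-!
# Gram matrices, the involution, closures, powers
-/

set_option autoImplicit false

namespace Pool.Agent.Q66.TG

open Finset Matrix Pool.Agent.W715.VC Pool.Agent.H550R3.Jones
open Pool.Agent.W709.QAT (Piece run cup cap kap Diag)

variable {N : ℕ}

/-! ### the involution -/

lemma dl_fit {P : Piece} {n : ℕ} (h : Fit P n) : Fit (dl P n) (out P n) := by
  cases P <;> simp only [Fit, dl, out] at * <;> omega

lemma dl_out {P : Piece} {n : ℕ} (h : Fit P n) : out (dl P n) (out P n) = n := by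
  cases P <;> simp only [Fit, dl, out] at * <;> omega

lemma dl_dl {P : Piece} {n : ℕ} (h : Fit P n) : dl (dl P n) (out P n) = P := by
  cases P with
  | cup i =>
    simp only [Fit, dl, out] at *
    congr 1
    omega
  | cap i =>
    simp only [Fit, dl, out] at *
    congr 1
    omega
  | twist i σ m =>
    simp only [Fit, dl, out, Bool.not_not] at *
    congr 1
    omega

lemma outD_append (D D' : Diag) : ∀ n : ℕ, outD (D ++ D') n = outD D' (outD D n) := by
  induction D with
  | nil => intro n; rfl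
  | cons P D ih => intro n; exact ih _

lemma FitD_append (D D' : Diag) : ∀ n : ℕ, FitD (D ++ D') n ↔ FitD D n ∧ FitD D' (outD D n) := by
  induction D with
  | nil =>
    intro n
    exact ⟨fun h => ⟨trivial, h⟩, fun h => h.2⟩
  | cons P D ih =>
    intro n
    constructor
    · rintro ⟨h1, h2⟩
      obtain ⟨h3, h4⟩ := (ih _).1 h2
      exact ⟨⟨h1, h3⟩, h4⟩
    · rintro ⟨⟨h1, h3⟩, h4⟩
      exact ⟨h1, (ih _).2 ⟨h3, h4⟩⟩

lemma dlD_append (D D' : Diag) : ∀ n : ℕ, dlD (D ++ D') n = dlD D' (outD D n) ++ dlD D n := by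
  induction D with
  | nil =>
    intro n
    exact (List.append_nil _).symm
  | cons P D ih =>
    intro n
    change dlD (D ++ D') (out P n) ++ [dl P n] = dlD D' (outD D (out P n)) ++ (dlD D (out P n) ++ [dl P n])
    rw [ih, List.append_assoc]

lemma outD_dlD (D : Diag) : ∀ n : ℕ, FitD D n → outD (dlD D n) (outD D n) = n := by
  induction D with
  | nil => intro n _; rfl
  | cons P D ih =>
    intro n h
    change outD (dlD D (out P n) ++ [dl P n]) (outD D (out P n)) = n
    rw [outD_append, ih _ h.2]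
    exact dl_out h.1

lemma FitD_dlD (D : Diag) : ∀ n : ℕ, FitD D n → FitD (dlD D n) (outD D n) := by
  induction D with
  | nil => intro n _; trivial
  | cons P D ih =>
    intro n h
    change FitD (dlD D (out P n) ++ [dl P n]) (outD D (out P n))
    rw [FitD_append]
    refine ⟨ih _ h.2, ?_⟩
    rw [outD_dlD D _ h.2]
    exact ⟨dl_fit h.1, trivial⟩

lemma dlD_dlD (D : Diag) : ∀ n : ℕ, FitD D n → dlD (dlD D n) (outD D n) = D := by
  induction D with
  | nil => intro n _; rfl
  | cons P D ih =>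
    intro n h
    change dlD (dlD D (out P n) ++ [dl P n]) (outD D (out P n)) = P :: D
    rw [dlD_append, ih _ h.2, outD_dlD D _ h.2]
    change [dl (dl P n) (out P n)] ++ D = P :: D
    rw [dl_dl h.1]
    rfl

/-! ### Gram matrices -/

lemma InK_zero (m : ℕ) : InK m (0 : I3 N → ℂ) := ⟨InW_zero m, by rw [Matrix.mulVec_zero]⟩

lemma InK_sum {ι : Type*} (s : Finset ι) {m : ℕ} (x : ι → I3 N → ℂ) (c : ι → ℂ)
    (h : ∀ i ∈ s, InK m (x i)) : InK m (∑ i ∈ s, c i • x i) := by
  classical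
  induction s using Finset.induction_on with
  | empty =>
    rw [sum_empty]
    exact InK_zero m
  | insert a s ha ih =>
    rw [sum_insert ha]
    exact InK_add (InK_smul (h a (mem_insert_self a s)) _)
      (ih fun i hi => h i (mem_insert_of_mem hi))

lemma Hf_suml {ι : Type*} (s : Finset ι) (f : ι → I3 N → ℂ) (y : I3 N → ℂ) :
    Hf (∑ a ∈ s, f a) y = ∑ a ∈ s, Hf (f a) y := by
  classical
  induction s using Finset.induction_on with
  | empty => simp [Hf_zero_left]
  | insert a s ha ih => rw [sum_insert ha, sum_insert ha, Hf_add_left, ih]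

lemma Hf_sumr {ι : Type*} (s : Finset ι) (f : ι → I3 N → ℂ) (x : I3 N → ℂ) :
    Hf x (∑ a ∈ s, f a) = ∑ a ∈ s, Hf x (f a) := by
  classical
  induction s using Finset.induction_on with
  | empty => simp [Hf_zero_right]
  | insert a s ha ih => rw [sum_insert ha, sum_insert ha, Hf_add_right, ih]

theorem gram (hN : 0 < N) {ι : Type*} [Fintype ι] (T : ι → Diag) (c : ι → ℂ)
    (hT : ∀ i, T13 (T i)) : ∃ r : ℝ, 0 ≤ r ∧
    ∑ i, ∑ j, (starRingEnd ℂ) (c i) * c j *
      run N (rt N) (T j ++ dlD (T i) 1) (e0 hN) [⟨0, hN⟩] = r := by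
  obtain ⟨r, hr, h⟩ := psd hN (InK_sum univ (fun i => XT hN (T i)) c fun i _ => XT_InK hN (hT i))
  refine ⟨r, hr, ?_⟩
  rw [← h, Hf_suml]
  refine sum_congr rfl fun i _ => ?_
  rw [Hf_sumr]
  refine sum_congr rfl fun j _ => ?_
  rw [glue hN (hT i), Hf_smul_left, Hf_smul_right]
  ring

/-! ### closures -/

lemma T13_cup (i : ℕ) (hi : i < 2) : T13 [Piece.cup i] := by
  refine ⟨⟨?_, trivial⟩, rfl⟩
  simp only [Fit]
  omega

lemma zig (hN : 0 < N) (i : ℕ) (hi : i < 2) :
    run N (rt N) ([Piece.cup i] ++ dlD [Piece.cup i] 1) (e0 hN) [⟨0, hN⟩] = 1 := by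
  have h := Pool.Agent.W591.QAT.zz N (rt N) (rt_ne N) (fun k h0 h1 => br_ne (by omega) (by omega))
    (e0 hN) 0 [⟨0, hN⟩] (by simp)
  have h1 : e0 hN [⟨0, hN⟩] = 1 := by simp [e0]
  rw [h1] at h
  interval_cases i
  · exact h.2
  · exact h.1

/-- closures are bounded by the double -/
theorem closure_le (hN : 0 < N) {T : Diag} (hT : T13 T) (i : ℕ) (hi : i < 2) :
    ‖run N (rt N) (T ++ [Piece.cap i]) (e0 hN) [⟨0, hN⟩]‖ ^ 2 ≤
      ‖run N (rt N) (T ++ dlD T 1) (e0 hN) [⟨0, hN⟩]‖ := by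
  have h := refl hN (T13_cup (1 - i) (by omega)) hT
  have e : dlD [Piece.cup (1 - i)] 1 = [Piece.cap i] := by
    interval_cases i <;> rfl
  rw [zig hN (1 - i) (by omega), norm_one, one_mul, e] at h
  exact h

/-! ### powers -/

/-- diagrams with three strands below and above -/
def T33 (D : Diag) : Prop := FitD D 3 ∧ outD D 3 = 3

lemma T13_append {T A : Diag} (hT : T13 T) (hA : T33 A) : T13 (T ++ A) := by
  refine ⟨(FitD_append _ _ _).2 ⟨hT.1, ?_⟩, ?_⟩
  · rw [hT.2]
    exact hA.1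
  · rw [outD_append, hT.2, hA.2]

lemma T33_append {A B : Diag} (hA : T33 A) (hB : T33 B) : T33 (A ++ B) := by
  refine ⟨(FitD_append _ _ _).2 ⟨hA.1, ?_⟩, ?_⟩
  · rw [hA.2]
    exact hB.1
  · rw [outD_append, hA.2, hB.2]

lemma T33_dl {A : Diag} (hA : T33 A) : T33 (dlD A 3) := by
  have h1 := FitD_dlD A 3 hA.1
  have h2 := outD_dlD A 3 hA.1
  rw [hA.2] at h1 h2
  exact ⟨h1, h2⟩

/-- powers -/
def pw (B : Diag) (n : ℕ) : Diag := (List.replicate n B).flatten

lemma pw_succ (B : Diag) (n : ℕ) : pw B (n + 1) = B ++ pw B n := by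
  unfold pw
  rw [List.replicate_succ, List.flatten_cons]

lemma pw_add (B : Diag) (m n : ℕ) : pw B (m + n) = pw B m ++ pw B n := by
  unfold pw
  rw [List.replicate_add, List.flatten_append]

lemma pw_one (B : Diag) : pw B 1 = B := by simp [pw]

lemma T33_pw {B : Diag} (hB : T33 B) (n : ℕ) : T33 (pw B n) := by
  induction n with
  | zero => exact ⟨trivial, rfl⟩
  | succ n ih =>
    rw [pw_succ]
    exact T33_append hB ih

lemma dl_pw {B : Diag} (hB : T33 B) (n : ℕ) : dlD (pw B n) 3 = pw (dlD B 3) n := by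
  induction n with
  | zero => rfl
  | succ n ih =>
    rw [pw_succ, dlD_append, hB.2, ih, pw_add, pw_one]

/-- `A` followed by its adjoint -/
def sq (A : Diag) : Diag := A ++ dlD A 3

lemma T33_sq {A : Diag} (hA : T33 A) : T33 (sq A) := T33_append hA (T33_dl hA)

lemma dl_sq {A : Diag} (hA : T33 A) : dlD (sq A) 3 = sq A := by
  unfold sq
  have h := dlD_dlD A 3 hA.1
  rw [hA.2] at h
  rw [dlD_append, hA.2, h]

/-- the links `T* (A* A)^n T` -/
noncomputable def an (hN : 0 < N) (T A : Diag) (n : ℕ) : ℂ :=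
  run N (rt N) (T ++ (pw (sq A) n ++ dlD T 1)) (e0 hN) [⟨0, hN⟩]

lemma an_even (hN : 0 < N) {T A : Diag} (hT : T13 T) (hA : T33 A) (j k : ℕ) :
    run N (rt N) ((T ++ pw (sq A) j) ++ dlD (T ++ pw (sq A) k) 1) (e0 hN) [⟨0, hN⟩] =
      an hN T A (j + k) := by
  unfold an
  rw [dlD_append, hT.2, dl_pw (T33_sq hA), dl_sq hA, pw_add]
  simp only [List.append_assoc]

lemma an_odd (hN : 0 < N) {T A : Diag} (hT : T13 T) (hA : T33 A) (j k : ℕ) :
    run N (rt N) ((T ++ (pw (sq A) j ++ A)) ++ dlD (T ++ (pw (sq A) k ++ A)) 1) (e0 hN)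
      [⟨0, hN⟩] = an hN T A (j + 1 + k) := by
  unfold an
  rw [dlD_append, hT.2, dlD_append, (T33_pw (T33_sq hA) k).2, dl_pw (T33_sq hA), dl_sq hA, pw_add,
    pw_add, pw_one]
  unfold sq
  simp only [List.append_assoc]

theorem an_nonneg (hN : 0 < N) {T A : Diag} (hT : T13 T) (hA : T33 A) (n : ℕ) :
    ∃ r : ℝ, 0 ≤ r ∧ an hN T A n = r := by
  rcases Nat.even_or_odd' n with ⟨k, hk | hk⟩
  · have h := double_nonneg hN (T13_append hT (T33_pw (T33_sq hA) k))
    rw [an_even hN hT hA, show k + k = n by omega] at h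
    exact h
  · have h := double_nonneg hN (T13_append hT (T33_append (T33_pw (T33_sq hA) k) hA))
    rw [an_odd hN hT hA, show k + 1 + k = n by omega] at h
    exact h

theorem an_conv (hN : 0 < N) {T A : Diag} (hT : T13 T) (hA : T33 A) (n : ℕ) :
    ‖an hN T A (n + 1)‖ ^ 2 ≤ ‖an hN T A n‖ * ‖an hN T A (n + 2)‖ := by
  rcases Nat.even_or_odd' n with ⟨k, hk | hk⟩
  · have h := refl hN (T13_append hT (T33_pw (T33_sq hA) k))
      (T13_append hT (T33_pw (T33_sq hA) (k + 1)))
    rw [an_even hN hT hA, an_even hN hT hA, an_even hN hT hA, show k + 1 + k = n + 1 by omega,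
      show k + k = n by omega, show k + 1 + (k + 1) = n + 2 by omega] at h
    exact h
  · have h := refl hN (T13_append hT (T33_append (T33_pw (T33_sq hA) k) hA))
      (T13_append hT (T33_append (T33_pw (T33_sq hA) (k + 1)) hA))
    rw [an_odd hN hT hA, an_odd hN hT hA, an_odd hN hT hA, show k + 1 + 1 + k = n + 1 by omega,
      show k + 1 + k = n by omega, show k + 1 + 1 + (k + 1) = n + 2 by omega] at h
    exact h

end Pool.Agent.Q66.TG
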