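import Pool.Agent.Q66.TG.Eqv
import Pool.Agent.Q66.TB.Growth

/-!
# Reflection positivity across a sphere which meets the link in four points
-/

set_option autoImplicit false

namespace Pool.Agent.Q66.TG

open Finset Matrix Pool.Agent.W715.VC Pool.Agent.H550R3.Jones
open Pool.Agent.W709.QAT (Piece run cup cap kap Diag)

variable {N : ℕ}

lemma s2K_apply (x : I3 N → ℂ) (a b c : Fin N) :
    (s2 (Ko N) *ᵥ x) (a, (b, c)) = k1 b * x (a, (b, c)) := by
  rw [s2_mulVec, sum_eq_single b]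
  · rw [Ko_apply, if_pos rfl]
  · intro b' _ hb
    rw [Ko_apply, if_neg (Ne.symm hb), zero_mul]
  · intro h
    exact absurd (mem_univ _) h

lemma s3K_apply (x : I3 N → ℂ) (a b c : Fin N) :
    (s3 (Ko N) *ᵥ x) (a, (b, c)) = k1 c * x (a, (b, c)) := by
  rw [s3_mulVec, sum_eq_single c]
  · rw [Ko_apply, if_pos rfl]
  · intro b' _ hb
    rw [Ko_apply, if_neg (Ne.symm hb), zero_mul]
  · intro h
    exact absurd (mem_univ _) h

lemma Et_apply (x : I3 N → ℂ) (a b c : Fin N) : (Et N *ᵥ x) (a, (b, c)) =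
    (∑ a', Eo N a a' * x (a', (b, c))) * (k1 b * k1 c) +
      ((∑ b', Eo N b b' * x (a, (b', c))) * k1 c + ∑ c', Eo N c c' * x (a, (b, c'))) := by
  rw [Et_eq, E23_eq, on23_KK, Matrix.add_mulVec, Matrix.add_mulVec, ← Matrix.mulVec_mulVec,
    ← Matrix.mulVec_mulVec, ← Matrix.mulVec_mulVec, Pi.add_apply, Pi.add_apply, s1_mulVec,
    s2_mulVec, s3_mulVec, sum_mul, sum_mul]
  congr 1
  · refine sum_congr rfl fun a' _ => ?_
    rw [s2K_apply, s3K_apply]
    ring
  · congr 1
    refine sum_congr rfl fun b' _ => ?_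
    rw [s3K_apply]
    ring

/-- vectors on three strands -/
def X3 (f : List (Fin N) → ℂ) : I3 N → ℂ := fun p => f [p.1, p.2.1, p.2.2]

lemma Et_X3 (f : List (Fin N) → ℂ) (a b c : Fin N) :
    (Et N *ᵥ X3 f) (a, (b, c)) = EL [a, b, c] f := by
  rw [Et_apply]
  change _ = (∑ a', Eo N a a' * f [a', b, c]) * kk [b, c] +
    ((∑ b', Eo N b b' * f [a, b', c]) * kk [c] + ((∑ c', Eo N c c' * f [a, b, c']) * kk [] + 0))
  have e1 : kk [b, c] = k1 b * k1 c := by simp [kk]
  have e2 : kk [c] = k1 c := by simp [kk]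
  have e3 : kk ([] : List (Fin N)) = 1 := by simp [kk]
  rw [e1, e2, e3, mul_one, add_zero]
  rfl

lemma pr_three (g f : List (Fin N) → ℂ) : pr 3 g f = Hf (X3 g) (X3 f) := by
  unfold pr Hf
  rw [Fintype.sum_prod_type]
  have h : ∀ a : Fin N, ∑ y : Fin N × Fin N, (starRingEnd ℂ) (X3 g (a, y)) * X3 f (rv (a, y)) =
      ∑ b, ∑ c, (starRingEnd ℂ) (g [a, b, c]) * f [c, b, a] := by
    intro a
    rw [Fintype.sum_prod_type]
    rfl
  rw [sum_congr rfl fun a _ => h a]
  change ∑ a, ∑ b, ∑ c, (starRingEnd ℂ) (g [a, b, c].reverse) * f [a, b, c] = _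
  have h2 : ∀ a b c : Fin N, (starRingEnd ℂ) (g [a, b, c].reverse) * f [a, b, c] =
      (starRingEnd ℂ) (g [c, b, a]) * f [a, b, c] := fun a b c => rfl
  simp only [h2]
  calc ∑ a, ∑ b, ∑ c, (starRingEnd ℂ) (g [c, b, a]) * f [a, b, c]
      = ∑ a, ∑ c, ∑ b, (starRingEnd ℂ) (g [c, b, a]) * f [a, b, c] :=
        sum_congr rfl fun a _ => sum_comm
    _ = ∑ c, ∑ a, ∑ b, (starRingEnd ℂ) (g [c, b, a]) * f [a, b, c] := sum_comm
    _ = _ := sum_congr rfl fun c _ => sum_comm

/-- diagrams with one strand below and three strands above -/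
def T13 (D : Diag) : Prop := FitD D 1 ∧ outD D 1 = 3

/-- the vector of such a diagram -/
noncomputable def XT (hN : 0 < N) (D : Diag) : I3 N → ℂ := X3 (run N (rt N) D (e0 hN))

lemma e0_Wt (hN : 0 < N) : Wt 1 (e0 hN) := by
  intro s hs hne
  unfold e0 at hne
  split_ifs at hne with h
  · rw [h]
    simp [lev]
  · exact absurd rfl hne

lemma e0_EL (hN : 0 < N) (s : List (Fin N)) (hs : s.length = 1) : EL s (e0 hN) = 0 := by
  match s, hs with
  | [a], _ =>
    change (∑ a', Eo N a a' * e0 hN [a']) * kk [] + 0 = 0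
    rw [add_zero, sum_eq_zero, zero_mul]
    intro a' _
    by_cases h : a' = (⟨0, hN⟩ : Fin N)
    · have : Eo N a a' = 0 := by
        unfold Eo irr
        simp only
        rw [if_neg]
        rw [h]
        simp
      rw [this, zero_mul]
    · have : e0 hN [a'] = 0 := by
        unfold e0
        rw [if_neg]
        simpa using h
      rw [this, mul_zero]

theorem XT_InK (hN : 0 < N) {D : Diag} (hD : T13 D) : InK (N - 1) (XT hN D) := by
  refine ⟨fun a b c h => ?_, ?_⟩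
  · unfold hat at h
    split_ifs at h with h1
    · have h2 := Wt_run D 1 hD.1 (e0_Wt hN) [⟨a, h1.1⟩, ⟨b, h1.2.1⟩, ⟨c, h1.2.2⟩]
        (by rw [hD.2]; rfl) h
      rw [hD.2] at h2
      simp only [lev, List.map_cons, List.map_nil, List.sum_cons, List.sum_nil] at h2
      push_cast at h2
      omega
    · exact absurd rfl h
  · funext p
    obtain ⟨a, b, c⟩ := p
    unfold XT
    rw [Et_X3, EL_run D 1 hD.1 _ _ (by rw [hD.2]; rfl), Pi.zero_apply]
    have h0 : run N (rt N) D (fun r => EL r (e0 hN)) [a, b, c] =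
        run N (rt N) D (fun _ => 0) [a, b, c] :=
      run_congr D 1 hD.1 (fun s hs => e0_EL hN s hs) _ (by rw [hD.2]; rfl)
    rw [h0]
    have hz : ∀ D : Diag, run N (rt N) D (fun _ : List (Fin N) => (0 : ℂ)) = fun _ => 0 := by
      intro D
      induction D with
      | nil => rfl
      | cons P D ih =>
        rw [run_cons]
        have : P.act N (rt N) (fun _ : List (Fin N) => (0 : ℂ)) = fun _ => 0 := by
          funext s
          cases P with
          | cup i =>
            simp only [Piece.act]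
            rcases s.drop i with _ | ⟨a, _ | ⟨b, r⟩⟩ <;> simp
          | cap i => simp [Piece.act]
          | twist i σ m =>
            simp only [Piece.act]
            rcases s.drop i with _ | ⟨a, _ | ⟨b, r⟩⟩ <;> simp
        rw [this, ih]
    rw [hz]

/-- **the invariant of a link cut along a sphere with four points** -/
theorem glue (hN : 0 < N) {S T : Diag} (hS : T13 S) :
    run N (rt N) (T ++ dlD S 1) (e0 hN) [⟨0, hN⟩] = Hf (XT hN S) (XT hN T) := by
  rw [run_append, ← pr_e0 hN (run N (rt N) (dlD S 1) (run N (rt N) T (e0 hN))),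
    ← pr_run' hN S 1 hS.1, hS.2, pr_three]
  rfl

/-- the form is positive on the highest weight vectors of weight `N - 1` -/
theorem psd (hN : 0 < N) {x : I3 N → ℂ} (hx : InK (N - 1) x) :
    ∃ r : ℝ, 0 ≤ r ∧ Hf x x = r := by
  have hm : N - 1 < N := by omega
  have h2 : N ≤ 2 * (N - 1) + 1 := by omega
  obtain ⟨c, hc⟩ := semi hm h2
  have hD : ∀ i ∈ range (N - 1 + 1), 0 ≤ DD N (N - 1) i := fun i hi => by
    rw [mem_range] at hi
    exact DD_nonneg hm (by omega)
  have key : ∀ z, InK (N - 1) z → Hf z z =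
      ((c * ∑ i ∈ range (N - 1 + 1), DD N (N - 1) i * ‖LL N (N - 1) i z‖ ^ 2 : ℝ) : ℂ) := by
    intro z hz
    rw [hc z z hz hz]
    push_cast
    congr 1
    refine sum_congr rfl fun i _ => ?_
    rw [Complex.conj_mul']
  have hs : ∀ z, 0 ≤ ∑ i ∈ range (N - 1 + 1), DD N (N - 1) i * ‖LL N (N - 1) i z‖ ^ 2 :=
    fun z => sum_nonneg fun i hi => mul_nonneg (hD i hi) (by positivity)
  have hc0 : 0 ≤ c := by
    by_contra hcn
    push Not at hcn
    have h1 := key _ (Pool.Agent.Q66.TB.X0_InK N)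
    have h3 := Pool.Agent.Q66.TB.J12_nil hN
    unfold Pool.Agent.Q66.TB.J12 at h3
    rw [rep3_nil, one_mulVec] at h3
    rw [h3] at h1
    have h4 : (1 : ℝ) = c * ∑ i ∈ range (N - 1 + 1), DD N (N - 1) i *
        ‖LL N (N - 1) i (Pool.Agent.Q66.TB.X0 N)‖ ^ 2 := by exact_mod_cast h1
    have h5 := hs (Pool.Agent.Q66.TB.X0 N)
    nlinarith
  exact ⟨_, mul_nonneg hc0 (hs x), key x hx⟩

/-- **positivity** -/
theorem double_nonneg (hN : 0 < N) {T : Diag} (hT : T13 T) :
    ∃ r : ℝ, 0 ≤ r ∧ run N (rt N) (T ++ dlD T 1) (e0 hN) [⟨0, hN⟩] = r := by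
  rw [glue hN hT]
  exact psd hN (XT_InK hN hT)

/-- **the reflection inequality** -/
theorem refl (hN : 0 < N) {S T : Diag} (hS : T13 S) (hT : T13 T) :
    ‖run N (rt N) (T ++ dlD S 1) (e0 hN) [⟨0, hN⟩]‖ ^ 2 ≤
      ‖run N (rt N) (S ++ dlD S 1) (e0 hN) [⟨0, hN⟩]‖ *
        ‖run N (rt N) (T ++ dlD T 1) (e0 hN) [⟨0, hN⟩]‖ := by
  rw [glue hN hS, glue hN hS, glue hN hT]
  exact Pool.Agent.Q66.RP.cs (by omega : N - 1 < N) (by omega) (XT_InK hN hS) (XT_InK hN hT)

end Pool.Agent.Q66.TG
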